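import Pool.Agent.H98.RFC.Targets

/-!
# Row STEP of rfc_modules
-/

set_option autoImplicit false
set_option linter.unusedVariables false

noncomputable section

open MeasureTheory ProbabilityTheory
open Pool.Agent.H98.RFC

namespace Pool.Agent.H80.RFC

/-- the ratio of the weights in `Λ` and in `W` -/
def rho (R : ℕ) (J h : Site → ℝ) (T : ℝ) (W Λ : Finset Site) (A : Set Site) : ℝ :=
  Real.exp (-(en R J h Λ A - en R J h W A) / T)

theorem wt_split (hDM : T_DM) (R : ℕ) (J h : Site → ℝ) (T : ℝ) (W Λ : Finset Site)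
    (hW : W ⊆ Λ) (B : Set Site) (So Si : Finset Site) (hi : Si ⊆ W) :
    wt R J h T Λ B (So ∪ Si) =
      rho R J h T W Λ (↑So ∪ B) * wt R J h T W (↑So ∪ B) Si := by
  have hA : (↑(So ∪ Si) ∪ B : Set Site) = ↑Si ∪ (↑So ∪ B) := by
    ext z
    simp only [Finset.coe_union, Set.mem_union, Finset.mem_coe]
    tauto
  have hd : ((↑Si ∪ (↑So ∪ B) : Set Site)) \ (↑W : Set Site) =
      (↑So ∪ B : Set Site) \ (↑W : Set Site) := by
    ext z
    simp only [Set.mem_sdiff, Set.mem_union, Finset.mem_coe]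
    constructor
    · rintro ⟨h1 | h1, h2⟩
      · exact absurd (hi h1) h2
      · exact ⟨h1, h2⟩
    · rintro ⟨h1, h2⟩
      exact ⟨Or.inr h1, h2⟩
  have key := hDM R J h W Λ hW _ _ hd
  unfold wt rho
  rw [hA, ← Real.exp_add]
  congr 1
  rw [← key]
  ring

theorem pf_STEP (hBOX : T_BOX) (hDM : T_DM) (hPS : T_PS) (hPL : T_PL) : T_STEP := by
  intro R J hJ h T hT W Λ hW y hy G hG0 hG
  set Q := Λ \ W with hQ
  have hΛ : Λ = Q ∪ W := by
    rw [hQ, Finset.sdiff_union_of_subset hW]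
  have hdis : Disjoint Q W := Finset.sdiff_disjoint
  have hsum : ∀ F : Finset Site → Finset Site → ℝ,
      ∑ S ∈ Λ.powerset, ∑ S' ∈ Λ.powerset, F S S' =
        ∑ So ∈ Q.powerset, ∑ So' ∈ Q.powerset, ∑ Si ∈ W.powerset, ∑ Si' ∈ W.powerset,
          F (So ∪ Si) (So' ∪ Si') := by
    intro F
    have h1 : ∀ f : Finset Site → ℝ, ∑ S ∈ Λ.powerset, f S =
        ∑ So ∈ Q.powerset, ∑ Si ∈ W.powerset, f (So ∪ Si) := by
      intro f
      conv_lhs => rw [hΛ]
      exact hPS Site Q W hdis f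
    rw [h1]
    refine Finset.sum_congr rfl fun So _ => ?_
    have h2 : ∑ Si ∈ W.powerset, ∑ S' ∈ Λ.powerset, F (So ∪ Si) S' =
        ∑ Si ∈ W.powerset, ∑ So' ∈ Q.powerset, ∑ Si' ∈ W.powerset, F (So ∪ Si) (So' ∪ Si') :=
      Finset.sum_congr rfl fun Si _ => h1 _
    rw [h2, Finset.sum_comm]
  have hGs : ∀ So So' Si Si' : Finset Site, So ⊆ Q → So' ⊆ Q → Si ⊆ W → Si' ⊆ W →
      G (So ∪ Si) (So' ∪ Si') = G So So' := by
    intro So So' Si Si' h1 h2 h3 h4
    have e1 : ∀ A B : Finset Site, A ⊆ Q → B ⊆ W → (A ∪ B) \ W = A \ W := by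
      intro A B _ hB
      rw [Finset.union_sdiff_distrib, Finset.sdiff_eq_empty_iff_subset.2 hB, Finset.union_empty]
    rw [hG, e1 _ _ h1 h3, e1 _ _ h2 h4, ← hG]
  rw [hsum, hsum, Finset.mul_sum]
  refine Finset.sum_le_sum fun So hSo => ?_
  rw [Finset.mul_sum]
  refine Finset.sum_le_sum fun So' hSo' => ?_
  have hSo := Finset.mem_powerset.1 hSo
  have hSo' := Finset.mem_powerset.1 hSo'
  set B : Set Site := ↑So ∪ (↑Λ)ᶜ with hB
  set B' : Set Site := ↑So' ∪ ∅ with hB'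
  set c : ℝ := rho R J h T W Λ B * rho R J h T W Λ B' * G So So' with hc
  have hc0 : 0 ≤ c := mul_nonneg (mul_nonneg (Real.exp_nonneg _) (Real.exp_nonneg _)) (hG0 _ _)
  have hBd : Disjoint B (↑W : Set Site) := by
    rw [Set.disjoint_left]
    rintro z (hz | hz) hzW
    · exact (Finset.mem_sdiff.1 (hSo hz)).2 hzW
    · exact hz (hW hzW)
  have hBd' : Disjoint B' (↑W : Set Site) := by
    rw [Set.disjoint_left]
    rintro z (hz | hz) hzW
    · exact (Finset.mem_sdiff.1 (hSo' hz)).2 hzW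
    · exact hz
  have hbox := hBOX R J hJ h T hT W B B' hBd hBd' y hy
  have e1 : ∑ Si ∈ W.powerset, ∑ Si' ∈ W.powerset,
      wt R J h T Λ (↑Λ)ᶜ (So ∪ Si) * wt R J h T Λ ∅ (So' ∪ Si') * (G (So ∪ Si) (So' ∪ Si') *
        psi (qe J T) (prs R W) ((↑(So ∪ Si) ∪ (↑Λ)ᶜ) \ ↑(So' ∪ Si')) W y) =
      c * ∑ Si ∈ W.powerset, ∑ Si' ∈ W.powerset, wt R J h T W B Si * wt R J h T W B' Si' *
        psi (qe J T) (prs R W) ((↑Si ∪ B) \ (↑Si' ∪ B')) W y := by
    rw [Finset.mul_sum]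
    refine Finset.sum_congr rfl fun Si hSi => ?_
    rw [Finset.mul_sum]
    refine Finset.sum_congr rfl fun Si' hSi' => ?_
    have hSi := Finset.mem_powerset.1 hSi
    have hSi' := Finset.mem_powerset.1 hSi'
    have hD : ((↑(So ∪ Si) ∪ (↑Λ)ᶜ) \ ↑(So' ∪ Si') : Set Site) = (↑Si ∪ B) \ (↑Si' ∪ B') := by
      ext z
      simp only [hB, hB', Finset.coe_union, Set.mem_sdiff, Set.mem_union, Finset.mem_coe,
        Set.mem_empty_iff_false, or_false]
      tauto
    rw [wt_split hDM R J h T W Λ hW _ So Si hSi, wt_split hDM R J h T W Λ hW _ So' Si' hSi',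
      hGs So So' Si Si' hSo hSo' hSi hSi', hD]
    simp only [hc, hB, hB']
    ring
  have e2 : ∑ Si ∈ W.powerset, ∑ Si' ∈ W.powerset,
      wt R J h T Λ (↑Λ)ᶜ (So ∪ Si) * wt R J h T Λ ∅ (So' ∪ Si') * G (So ∪ Si) (So' ∪ Si') =
      c * (Zf R J h T W B * Zf R J h T W B') := by
    unfold Zf
    rw [Finset.sum_mul_sum, Finset.mul_sum]
    refine Finset.sum_congr rfl fun Si hSi => ?_
    rw [Finset.mul_sum]
    refine Finset.sum_congr rfl fun Si' hSi' => ?_
    have hSi := Finset.mem_powerset.1 hSi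
    have hSi' := Finset.mem_powerset.1 hSi'
    rw [wt_split hDM R J h T W Λ hW _ So Si hSi, wt_split hDM R J h T W Λ hW _ So' Si' hSi',
      hGs So So' Si Si' hSo hSo' hSi hSi']
    simp only [hc, hB, hB']
    ring
  rw [e1, e2]
  have := mul_le_mul_of_nonneg_left hbox hc0
  linarith

end Pool.Agent.H80.RFC
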